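import Pool.Agent.Helper76_LAG.Stmt

/-!
# LAG, module SUM3: the sum over closed trails
-/

set_option autoImplicit false

namespace Pool.Agent.LAG.Sum3

open SimpleGraph Pool.Agent.LAG

theorem card_kx {L : ℕ} (s s' : Fin 4) (h : s ≠ s') :
    3 * Nat.card {a : St L // kx a.1.1 s = s'} = Nat.card (St L) := by
  obtain ⟨t, ht1, ht2⟩ := kx_unique s s' h
  let e : {a : St L // kx a.1.1 s = s'} ≃ Fin L × (Fin 4 → Bool) :=
    { toFun := fun a => (a.1.1.2, a.1.2)
      invFun := fun b => ⟨((t, b.1), b.2), ht1⟩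
      left_inv := fun a => by
        have h1 : a.1.1.1 = t := ht2 _ a.2
        apply Subtype.ext
        apply Prod.ext
        · apply Prod.ext
          · exact h1.symm
          · rfl
        · rfl
      right_inv := fun b => rfl }
  rw [Nat.card_congr e, Nat.card_prod, St, Nat.card_prod, Nat.card_prod]
  simp only [Nat.card_eq_fintype_card, Fintype.card_fin]
  ring

variable {V : Type} [Fintype V]

omit [Fintype V] in
theorem cyc_eq {n : ℕ} (z : Fin (n + 1) → V) (t : ℕ) (h : t ≤ n) : cyc z t = z ⟨t, by omega⟩ := by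
  unfold cyc
  congr 1
  apply Fin.ext
  change t % (n + 1) = t
  exact Nat.mod_eq_of_lt (by omega)

/-- the probability of the partner conditions on a cycle -/
theorem card_ev3 (hP : PrdStmt) {L n : ℕ} (E : Env V) (z : Fin (n + 1) → V) (x : V)
    (hz : IsC E.H (cyc z) (n + 1)) :
    3 ^ n * Nat.card {ω : V → St L // Ev3 E ω (cyc z) (n + 1)} ≤ Nat.card (V → St L) := by
  classical
  obtain ⟨h3, hadj, hc, hinj⟩ := hz
  let S : Finset V := (Finset.Icc 1 n).image (cyc z)
  have hinj' : Set.InjOn (cyc z) (Finset.Icc 1 n : Finset ℕ) := by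
    intro s hs t ht hst
    rw [Finset.coe_Icc, Set.mem_Icc] at hs ht
    exact hinj s t (by omega) (by omega) hst
  have hcard : S.card = n := by
    rw [Finset.card_image_of_injOn hinj', Nat.card_Icc]
    omega
  let P : V → St L → Prop := fun v a => ∀ t, 0 < t → t < n + 1 → cyc z t = v →
    kx a.1.1 (E.slot v (cyc z (t - 1))) = E.slot v (cyc z (t + 1))
  have hev : ∀ ω : V → St L, Ev3 E ω (cyc z) (n + 1) ↔ ∀ v ∈ S, P v (ω v) := by
    intro ω
    constructor
    · intro h v _ t ht1 ht2 htv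
      have := h t ht1 ht2
      rw [Ptn, htv] at this
      exact this
    · intro h t ht1 ht2
      have hm : cyc z t ∈ S := Finset.mem_image.2 ⟨t, Finset.mem_Icc.2 ⟨ht1, by omega⟩, rfl⟩
      exact h _ hm t ht1 ht2 rfl
  have hone : ∀ v ∈ S, 3 * Nat.card {a : St L // P v a} = Nat.card (St L) := by
    intro v hv
    obtain ⟨t, ht, rfl⟩ := Finset.mem_image.1 hv
    rw [Finset.mem_Icc] at ht
    have hne : E.slot (cyc z t) (cyc z (t - 1)) ≠ E.slot (cyc z t) (cyc z (t + 1)) := by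
      intro h
      have h1 : E.H.Adj (cyc z t) (cyc z (t - 1)) := by
        have := hadj (t - 1) (by omega)
        rw [show t - 1 + 1 = t by omega] at this
        exact this.symm
      have h2 := E.slot_inj _ _ _ h1 (hadj t (by omega)) h
      by_cases htn : t = n
      · rw [htn, hc] at h2
        have := hinj (n - 1) 0 (by omega) (by omega) h2
        omega
      · have := hinj (t - 1) (t + 1) (by omega) (by omega) h2
        omega
    have he : {a : St L // P (cyc z t) a} ≃ {a : St L // kx a.1.1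
        (E.slot (cyc z t) (cyc z (t - 1))) = E.slot (cyc z t) (cyc z (t + 1))} := by
      refine Equiv.subtypeEquivRight fun a => ⟨fun h => h t (by omega) (by omega) rfl, ?_⟩
      intro h t' ht1 ht2 ht3
      have : t' = t := hinj t' t (by omega) (by omega) ht3
      rw [this]
      exact h
    rw [Nat.card_congr he]
    exact card_kx _ _ hne
  have hprod : (∏ v ∈ S, Nat.card {a : St L // P v a}) * 3 ^ n = Nat.card (St L) ^ n := by
    rw [← hcard, ← Finset.prod_const, ← Finset.prod_mul_distrib, ← Finset.prod_const]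
    refine Finset.prod_congr rfl fun v hv => ?_
    rw [mul_comm]
    exact hone v hv
  have hmain := hP V (St L) S P
  have hcongr : Nat.card {ω : V → St L // Ev3 E ω (cyc z) (n + 1)} =
      Nat.card {ω : V → St L // ∀ v ∈ S, P v (ω v)} :=
    Nat.card_congr (Equiv.subtypeEquivRight hev)
  rw [hcongr]
  rcases Nat.eq_zero_or_pos (Nat.card (St L)) with h0 | h0
  · have hemp : IsEmpty (St L) := by
      rcases Nat.card_eq_zero.1 h0 with h | h
      · exact h
      · exact absurd h (not_infinite_iff_finite.2 inferInstance)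
    have : IsEmpty {ω : V → St L // ∀ v ∈ S, P v (ω v)} := ⟨fun ω => hemp.false (ω.1 x)⟩
    rw [Nat.card_of_isEmpty, mul_zero]
    exact Nat.zero_le _
  · rw [hcard] at hmain
    have h1 : (3 ^ n * Nat.card {ω : V → St L // ∀ v ∈ S, P v (ω v)}) * Nat.card (St L) ^ n =
        Nat.card (V → St L) * Nat.card (St L) ^ n := by
      rw [mul_assoc, hmain, ← mul_assoc, mul_comm (3 ^ n), hprod, mul_comm]
    exact le_of_eq (Nat.eq_of_mul_eq_mul_right (pow_pos h0 n) h1)

open Classical in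
theorem term (hP : PrdStmt) {L n : ℕ} (E : Env V) (x : V) (z : Fin (n + 1) → V) :
    3 ^ n * Nat.card {ω : V → St L // IsC E.H (cyc z) (n + 1) ∧ Ev3 E ω (cyc z) (n + 1) ∧
      ∃ t, 0 < t ∧ t ≤ n ∧ cyc z t = x} ≤
      (∑ t ∈ Finset.Icc 1 n, if IsC E.H (cyc z) (n + 1) ∧ cyc z t = x then 1 else 0) *
        Nat.card (V → St L) := by
  by_cases h : IsC E.H (cyc z) (n + 1) ∧ ∃ t, 0 < t ∧ t ≤ n ∧ cyc z t = x
  · obtain ⟨hc, t, ht1, ht2, ht3⟩ := h
    have h1 : 1 ≤ ∑ t ∈ Finset.Icc 1 n,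
        if IsC E.H (cyc z) (n + 1) ∧ cyc z t = x then 1 else 0 := by
      refine le_trans ?_ (Finset.single_le_sum (f := fun t =>
        if IsC E.H (cyc z) (n + 1) ∧ cyc z t = x then 1 else 0) (fun _ _ => Nat.zero_le _)
        (Finset.mem_Icc.2 ⟨ht1, ht2⟩))
      rw [if_pos ⟨hc, ht3⟩]
    have h2 : Nat.card {ω : V → St L // IsC E.H (cyc z) (n + 1) ∧ Ev3 E ω (cyc z) (n + 1) ∧
        ∃ t, 0 < t ∧ t ≤ n ∧ cyc z t = x} ≤
        Nat.card {ω : V → St L // Ev3 E ω (cyc z) (n + 1)} :=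
      Nat.card_le_card_of_injective (fun ω => ⟨ω.1, ω.2.2.1⟩) fun a b hab => by
        exact Subtype.ext (Subtype.mk.inj hab)
    calc _ ≤ 3 ^ n * Nat.card {ω : V → St L // Ev3 E ω (cyc z) (n + 1)} :=
          Nat.mul_le_mul_left _ h2
      _ ≤ Nat.card (V → St L) := card_ev3 hP E z x hc
      _ ≤ _ := Nat.le_mul_of_pos_left _ h1
  · have : IsEmpty {ω : V → St L // IsC E.H (cyc z) (n + 1) ∧ Ev3 E ω (cyc z) (n + 1) ∧
        ∃ t, 0 < t ∧ t ≤ n ∧ cyc z t = x} := ⟨fun ω => h ⟨ω.2.1, ω.2.2.2⟩⟩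
    rw [Nat.card_of_isEmpty, mul_zero]
    exact Nat.zero_le _

theorem sum_n (hP : PrdStmt) (hC : CntCStmt) {L h : ℕ} (G : SimpleGraph V) (E : Env V)
    (hB : Big G (2 * h)) (hG : E.H ≤ G) (x : V) (n : ℕ) :
    3 ^ h * ∑ z : Fin (n + 1) → V, Nat.card {ω : V → St L // IsC E.H (cyc z) (n + 1) ∧
      Ev3 E ω (cyc z) (n + 1) ∧ ∃ t, 0 < t ∧ t ≤ n ∧ cyc z t = x} ≤
      4 * n * Nat.card (V → St L) := by
  classical
  have h1 : 3 ^ n * ∑ z : Fin (n + 1) → V, Nat.card {ω : V → St L // IsC E.H (cyc z) (n + 1) ∧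
      Ev3 E ω (cyc z) (n + 1) ∧ ∃ t, 0 < t ∧ t ≤ n ∧ cyc z t = x} ≤
      (∑ t ∈ Finset.Icc 1 n, Nat.card {z : Fin (n + 1) → V //
        IsC E.H (cyc z) (n + 1) ∧ cyc z t = x}) * Nat.card (V → St L) := by
    rw [Finset.mul_sum]
    refine le_trans (Finset.sum_le_sum fun z _ => term hP E x z) ?_
    rw [← Finset.sum_mul, Finset.sum_comm]
    refine Nat.mul_le_mul_right _ (Finset.sum_le_sum fun t _ => ?_)
    rw [Nat.card_eq_fintype_card, Fintype.card_subtype, Finset.card_filter]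
  have h2 : 3 ^ h * (∑ t ∈ Finset.Icc 1 n, Nat.card {z : Fin (n + 1) → V //
        IsC E.H (cyc z) (n + 1) ∧ cyc z t = x}) ≤ n * (4 * 3 ^ n) := by
    rw [Finset.mul_sum]
    refine le_trans (Finset.sum_le_card_nsmul _ _ (4 * 3 ^ n) fun t ht => ?_) ?_
    · rw [Finset.mem_Icc] at ht
      have := hC V G h E hB hG n t x ht.2
      rw [pow_succ, pow_succ 3 n] at this
      have h3 : 3 * (3 ^ h * Nat.card {z : Fin (n + 1) → V //
          IsC E.H (cyc z) (n + 1) ∧ cyc z t = x}) ≤ 3 * (4 * 3 ^ n) := by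
        calc _ = 3 ^ h * 3 * Nat.card {z : Fin (n + 1) → V //
            IsC E.H (cyc z) (n + 1) ∧ cyc z t = x} := by ring
          _ ≤ 4 * (3 ^ n * 3) := this
          _ = _ := by ring
      exact Nat.le_of_mul_le_mul_left h3 (by norm_num)
    · rw [Nat.card_Icc, smul_eq_mul]
      simp
  have h3 : 3 ^ n * (3 ^ h * ∑ z : Fin (n + 1) → V, Nat.card {ω : V → St L //
      IsC E.H (cyc z) (n + 1) ∧ Ev3 E ω (cyc z) (n + 1) ∧
        ∃ t, 0 < t ∧ t ≤ n ∧ cyc z t = x}) ≤ 3 ^ n * (4 * n * Nat.card (V → St L)) := by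
    calc _ = 3 ^ h * (3 ^ n * ∑ z : Fin (n + 1) → V, Nat.card {ω : V → St L //
          IsC E.H (cyc z) (n + 1) ∧ Ev3 E ω (cyc z) (n + 1) ∧
            ∃ t, 0 < t ∧ t ≤ n ∧ cyc z t = x}) := by ring
      _ ≤ 3 ^ h * ((∑ t ∈ Finset.Icc 1 n, Nat.card {z : Fin (n + 1) → V //
        IsC E.H (cyc z) (n + 1) ∧ cyc z t = x}) * Nat.card (V → St L)) :=
          Nat.mul_le_mul_left _ h1
      _ = (3 ^ h * (∑ t ∈ Finset.Icc 1 n, Nat.card {z : Fin (n + 1) → V //
        IsC E.H (cyc z) (n + 1) ∧ cyc z t = x})) * Nat.card (V → St L) := by ring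
      _ ≤ (n * (4 * 3 ^ n)) * Nat.card (V → St L) := Nat.mul_le_mul_right _ h2
      _ = _ := by ring
  exact Nat.le_of_mul_le_mul_left h3 (by positivity)

end Pool.Agent.LAG.Sum3

namespace Pool.Agent.LAG

/-- SUM3 -/
theorem sum3 (hP : PrdStmt) (hC : CntCStmt) : Sum3Stmt := by
  intro V _ L T h G E hB hG x
  rw [Fintype.sum_sigma, Finset.mul_sum]
  refine le_trans (Finset.sum_le_card_nsmul _ _ (4 * T * Nat.card (V → St L)) fun n _ => ?_) ?_
  · refine le_trans (Sum3.sum_n hP hC G E hB hG x n.1) ?_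
    exact Nat.mul_le_mul_right _ (Nat.mul_le_mul_left _ n.2.le)
  · rw [Finset.card_univ, Fintype.card_fin, smul_eq_mul]
    exact le_of_eq (by ring)

end Pool.Agent.LAG
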